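import Pool.Agent.L7h10.BP.RED2

set_option autoImplicit false

/-! Project BP, for part QF4: the addition formula of the Bernoulli polynomials and
`2 B_n(X) = X^n + (X+1)^n` modulo `4` if `4 ∣ n`. -/

namespace Pool.Agent.L7h75.BP

open Finset Polynomial Pool.Agent.L7h58.BP Pool.Agent.L7h10.BP

/-- the addition formula -/
theorem bern_add (y : ℚ) (m : ℕ) : (Polynomial.bernoulli m).comp (X + C y) =
    ∑ k ∈ range (m + 1), C ((m.choose k : ℚ) * y ^ k) * Polynomial.bernoulli (m - k) := by
  induction m with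
  | zero => simp
  | succ m ih =>
    have hd : derivative ((Polynomial.bernoulli (m + 1)).comp (X + C y) -
        ∑ k ∈ range (m + 1 + 1), C (((m + 1).choose k : ℚ) * y ^ k) *
          Polynomial.bernoulli (m + 1 - k)) = 0 := by
      rw [derivative_sub, derivative_comp, derivative_sum, Finset.sum_range_succ]
      have h0 : derivative (C (((m + 1).choose (m + 1) : ℚ) * y ^ (m + 1)) *
          Polynomial.bernoulli (m + 1 - (m + 1))) = 0 := by
        rw [Nat.sub_self, Polynomial.bernoulli_zero, mul_one, derivative_C]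
      rw [h0, add_zero]
      have h1 : ∀ k ∈ range (m + 1), derivative (C (((m + 1).choose k : ℚ) * y ^ k) *
          Polynomial.bernoulli (m + 1 - k)) =
          ((m + 1 : ℕ) : ℚ[X]) * (C ((m.choose k : ℚ) * y ^ k) *
            Polynomial.bernoulli (m - k)) := by
        intro k hk
        have hk' : k ≤ m := by rw [Finset.mem_range] at hk; omega
        rw [derivative_C_mul, show m + 1 - k = (m - k) + 1 by omega,
          Polynomial.derivative_bernoulli_add_one]
        have h2 : ((m + 1).choose k : ℚ) * (((m - k : ℕ) : ℚ) + 1) =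
            ((m : ℚ) + 1) * (m.choose k : ℚ) := by
          have h3 := Nat.choose_mul_succ_eq m k
          have h4 : (m.choose k * (m + 1) : ℕ) = ((m + 1).choose k * (m + 1 - k) : ℕ) := h3
          have h5 : m + 1 - k = (m - k) + 1 := by omega
          rw [h5] at h4
          have h6 : ((m.choose k * (m + 1) : ℕ) : ℚ) =
            (((m + 1).choose k * ((m - k) + 1) : ℕ) : ℚ) := by rw [h4]
          push_cast at h6
          linarith
        have h7 : (((m - k : ℕ) : ℚ[X]) + 1) = C (((m - k : ℕ) : ℚ) + 1) := by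
          rw [C_add, C_1, map_natCast]
        have h8 : ((m + 1 : ℕ) : ℚ[X]) = C ((m : ℚ) + 1) := by
          rw [C_add, C_1, map_natCast]; push_cast; rfl
        rw [h7, h8, ← mul_assoc, ← mul_assoc, ← C_mul, ← C_mul]
        congr 2
        linear_combination y ^ k * h2
      rw [Finset.sum_congr rfl h1, ← Finset.mul_sum, ← ih,
        Polynomial.derivative_bernoulli_add_one]
      simp only [derivative_add, derivative_X, derivative_C, add_zero, one_mul]
      rw [mul_comp, add_comp, natCast_comp, one_comp]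
      push_cast
      ring
    have hc := derivative_eq_zero.1 hd
    rw [← sub_eq_zero, eq_C_of_natDegree_eq_zero hc]
    rw [coeff_zero_eq_eval_zero, eval_sub, eval_comp, eval_finsetSum]
    have h9 : (Polynomial.bernoulli (m + 1)).eval y =
        ∑ k ∈ range (m + 1 + 1), ((m + 1).choose k : ℚ) * y ^ k *
          _root_.bernoulli (m + 1 - k) := by
      rw [Polynomial.bernoulli, eval_finsetSum]
      rw [← Finset.sum_range_reflect]
      refine Finset.sum_congr rfl fun k hk => ?_
      rw [Finset.mem_range] at hk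
      have h10 : m + 1 + 1 - 1 - k = m + 1 - k := by omega
      rw [h10, eval_monomial, show m + 1 - (m + 1 - k) = k by omega,
        Nat.choose_symm (by omega)]
      ring
    have h11 : (X + C y : ℚ[X]).eval 0 = y := by simp
    rw [h11, h9]
    have h12 : ∀ k ∈ range (m + 1 + 1), eval 0 (C (((m + 1).choose k : ℚ) * y ^ k) *
        Polynomial.bernoulli (m + 1 - k)) = ((m + 1).choose k : ℚ) * y ^ k *
          _root_.bernoulli (m + 1 - k) := by
      intro k _
      rw [eval_mul, eval_C, Polynomial.bernoulli_eval_zero]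
    rw [Finset.sum_congr rfl h12, sub_self, C_0]

/-- `(n+1) (X^n + (X+1)^n)` as a combination of Bernoulli polynomials -/
theorem two_step (n : ℕ) : ((n + 1 : ℕ) : ℚ[X]) * (X ^ n + (X + 1) ^ n) =
    ∑ k ∈ range (n + 1), C (((n + 1).choose (k + 1) : ℚ) * 2 ^ (k + 1)) *
      Polynomial.bernoulli (n - k) := by
  have h1 := bern_add 2 (n + 1)
  rw [Finset.sum_range_succ'] at h1
  have h2 := Polynomial.bernoulli_comp_one_add_X (n + 1)
  have h3 : (Polynomial.bernoulli (n + 1)).comp (X + C 2) =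
      ((Polynomial.bernoulli (n + 1)).comp (1 + X)).comp (1 + X) := by
    rw [comp_assoc]
    congr 1
    rw [add_comp, one_comp, X_comp]
    have : (C (2 : ℚ) : ℚ[X]) = 2 := map_ofNat C 2
    rw [this]; ring
  rw [h3, h2, add_comp, h2] at h1
  simp only [Nat.add_sub_cancel, Nat.choose_zero_right, pow_zero,
    Nat.cast_one, mul_one, C_1, one_mul, Nat.sub_zero, nsmul_eq_mul, Nat.add_sub_add_right] at h1
  have hcomp : (((n + 1 : ℕ) : ℚ[X]) * X ^ n).comp (1 + X) =
      ((n + 1 : ℕ) : ℚ[X]) * (1 + X) ^ n := by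
    rw [mul_comp, natCast_comp, pow_comp, X_comp]
  rw [hcomp] at h1
  have h4 : ∑ k ∈ range (n + 1), C (((n + 1).choose (k + 1) : ℚ) * 2 ^ (k + 1)) *
      Polynomial.bernoulli (n - k) = ((n + 1 : ℕ) : ℚ[X]) * X ^ n +
        ((n + 1 : ℕ) : ℚ[X]) * (1 + X) ^ n := by
    linear_combination -h1
  rw [h4]
  ring

/-- integral multiples -/
theorem num_int (n k : ℕ) (hn : 1 ≤ n) (hk : k ≤ n) : ∃ z : ℤ,
    (z : ℚ) = (DD (n + 1) : ℚ) * _root_.bernoulli k := by
  rcases Nat.even_or_odd k with hke | hko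
  · obtain ⟨z, hz, -⟩ := coef k hke k le_rfl
    have hdvd : DD (k + 1) ∣ DD (n + 1) := by
      unfold DD
      apply Finset.prod_dvd_prod_of_subset
      intro p hp
      rw [mem_prs] at hp ⊢
      exact ⟨by omega, hp.2⟩
    obtain ⟨c, hc⟩ := hdvd
    refine ⟨z * c, ?_⟩
    rw [hc]
    push_cast
    rw [hz, Nat.choose_self]
    push_cast
    ring
  · rcases Nat.lt_or_ge k 2 with h1 | h2
    · obtain rfl : k = 1 := by
        obtain ⟨r, hr⟩ := hko
        omega
      refine ⟨-(DE (n + 1) 2 : ℤ), ?_⟩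
      rw [_root_.bernoulli_one, DD_eq (mem_prs.2 ⟨by omega, Nat.prime_two⟩)]
      push_cast
      ring
    · refine ⟨0, ?_⟩
      rw [bernoulli_eq_zero_of_odd hko (by omega)]
      simp

theorem poly_int (n j : ℕ) (hn : 1 ≤ n) (hj : j ≤ n) : ∃ Q : ℤ[X],
    Q.map (Int.castRingHom ℚ) = C (DD (n + 1) : ℚ) * Polynomial.bernoulli j := by
  have h : ∀ k, ∃ z : ℤ, k ≤ n → (z : ℚ) = (DD (n + 1) : ℚ) * _root_.bernoulli k := by
    intro k
    by_cases hk : k ≤ n
    · obtain ⟨z, hz⟩ := num_int n k hn hk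
      exact ⟨z, fun _ => hz⟩
    · exact ⟨0, fun h => absurd h hk⟩
  choose z hz using h
  refine ⟨∑ k ∈ range (j + 1), monomial (j - k) (z k * (j.choose k : ℤ)), ?_⟩
  rw [Polynomial.map_sum, Polynomial.bernoulli, Finset.mul_sum]
  refine Finset.sum_congr rfl fun k hk => ?_
  rw [Finset.mem_range] at hk
  rw [map_monomial, C_mul_monomial]
  congr 1
  rw [map_mul, eq_intCast, eq_intCast, hz k (by omega)]
  push_cast
  ring

/-- the identity modulo 4 -/
theorem mod_four (n : ℕ) (hn : 1 ≤ n) (h4 : 4 ∣ n) (P : ℤ[X])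
    (hP : P.map (Int.castRingHom ℚ) = C (DD (n + 1) : ℚ) * Polynomial.bernoulli n) :
    P.map (Int.castRingHom (ZMod 4)) =
      C ((DE (n + 1) 2 : ℕ) : ZMod 4) * (X ^ n + (X + 1) ^ n) := by
  have hQ : ∀ j, ∃ Q : ℤ[X], j ≤ n → Q.map (Int.castRingHom ℚ) =
      C (DD (n + 1) : ℚ) * Polynomial.bernoulli j := by
    intro j
    by_cases hj : j ≤ n
    · obtain ⟨Q, hQ⟩ := poly_int n j hn hj
      exact ⟨Q, fun _ => hQ⟩
    · exact ⟨0, fun h => absurd h hj⟩
  choose Q hQ using hQ
  have he : ∀ k, ∃ e : ℤ, ((n + 1).choose (k + 2) : ℤ) * 2 ^ (k + 1) = 4 * e := by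
    intro k
    rcases k with _ | k
    · obtain ⟨t, ht⟩ := h4
      have h1 : (n + 1).choose 2 * 2 = (n + 1) * n := by
        have := Nat.choose_two_right (n + 1)
        rw [this, Nat.add_sub_cancel]
        exact Nat.div_mul_cancel (even_iff_two_dvd.1 (by rw [mul_comm]; exact Nat.even_mul_succ_self n))
      refine ⟨(n + 1) * t, ?_⟩
      have h2 : (((n + 1).choose 2 * 2 : ℕ) : ℤ) = (((n + 1) * n : ℕ) : ℤ) := by rw [h1]
      push_cast at h2
      have h3 : (n : ℤ) = 4 * t := by exact_mod_cast ht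
      simp only [zero_add, pow_one]
      rw [h2]
      nth_rewrite 2 [h3]
      ring
    · exact ⟨((n + 1).choose (k + 1 + 2) : ℤ) * 2 ^ k, by ring⟩
  choose e he using he
  have hD2 : (DD (n + 1) : ℚ) = 2 * (DE (n + 1) 2 : ℚ) := by
    rw [DD_eq (mem_prs.2 ⟨by omega, Nat.prime_two⟩)]
    push_cast
    rfl
  have key : ((n + 1 : ℕ) : ℤ[X]) * (C ((DE (n + 1) 2 : ℕ) : ℤ) * (X ^ n + (X + 1) ^ n) - P) =
      4 * ∑ k ∈ range n, C (e k) * Q (n - (k + 1)) := by
    apply Polynomial.map_injective (Int.castRingHom ℚ) Int.cast_injective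
    have h5 := two_step n
    rw [Finset.sum_range_succ'] at h5
    simp only [zero_add, Nat.choose_one_right, pow_one, Nat.sub_zero] at h5
    rw [Polynomial.map_mul, Polynomial.map_sub, Polynomial.map_mul, hP, Polynomial.map_mul,
      Polynomial.map_sum]
    simp only [Polynomial.map_natCast, Polynomial.map_C, Polynomial.map_add, Polynomial.map_pow,
      Polynomial.map_X, Polynomial.map_one, Polynomial.map_mul, Polynomial.map_ofNat]
    simp only [Int.coe_castRingHom, Int.cast_natCast]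
    have h6 : ∀ k ∈ range n, C ((e k : ℤ) : ℚ) * (Q (n - (k + 1))).map (Int.castRingHom ℚ) =
        C ((DE (n + 1) 2 : ℚ) / 4) * (C (((n + 1).choose (k + 1 + 1) : ℚ) * 2 ^ (k + 1 + 1)) *
          Polynomial.bernoulli (n - (k + 1))) := by
      intro k hk
      rw [hQ (n - (k + 1)) (Nat.sub_le _ _), ← mul_assoc, ← mul_assoc, ← C_mul, ← C_mul]
      congr 2
      have h7 : (((n + 1).choose (k + 2) : ℤ) : ℚ) * 2 ^ (k + 1) = 4 * (e k : ℚ) := by
        exact_mod_cast he k
      rw [hD2]
      push_cast at h7 ⊢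
      linear_combination -(1 / 2 : ℚ) * (DE (n + 1) 2 : ℚ) * h7
    rw [Finset.sum_congr rfl h6, ← Finset.mul_sum]
    have h8 : (4 : ℚ[X]) * (C ((DE (n + 1) 2 : ℚ) / 4) *
        ∑ k ∈ range n, C (((n + 1).choose (k + 1 + 1) : ℚ) * 2 ^ (k + 1 + 1)) *
          Polynomial.bernoulli (n - (k + 1))) = C (DE (n + 1) 2 : ℚ) *
        ∑ k ∈ range n, C (((n + 1).choose (k + 1 + 1) : ℚ) * 2 ^ (k + 1 + 1)) *
          Polynomial.bernoulli (n - (k + 1)) := by
      rw [← mul_assoc]
      congr 1
      have : (4 : ℚ[X]) = C 4 := (map_ofNat C 4).symm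
      rw [this, ← C_mul]
      congr 1
      ring
    rw [h8]
    have h9 : (C ((((n + 1 : ℕ) : ℚ)) * 2) : ℚ[X]) = ((n + 1 : ℕ) : ℚ[X]) * C 2 := by
      rw [C_mul, map_natCast]
    have h10 : (C (DD (n + 1) : ℚ) : ℚ[X]) = C 2 * C (DE (n + 1) 2 : ℚ) := by
      rw [hD2, C_mul]
    rw [h9] at h5
    rw [h10]
    linear_combination (C (DE (n + 1) 2 : ℚ)) * h5
  have key2 := congrArg (Polynomial.map (Int.castRingHom (ZMod 4))) key
  rw [Polynomial.map_mul, Polynomial.map_sub] at key2
  simp only [Polynomial.map_natCast, Polynomial.map_C, Polynomial.map_add, Polynomial.map_pow,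
      Polynomial.map_X, Polynomial.map_one, Polynomial.map_mul, Polynomial.map_ofNat] at key2
  simp only [Int.coe_castRingHom, Int.cast_natCast] at key2
  have h4z : (4 : (ZMod 4)[X]) = 0 := by
    have : ((4 : ℕ) : (ZMod 4)[X]) = 0 := CharP.cast_eq_zero _ 4
    exact_mod_cast this
  rw [h4z, zero_mul] at key2
  have hn1 : ((n + 1 : ℕ) : (ZMod 4)[X]) = 1 := by
    obtain ⟨t, rfl⟩ := h4
    push_cast
    rw [h4z]; ring
  rw [hn1, one_mul, sub_eq_zero] at key2
  exact key2.symm

end Pool.Agent.L7h75.BP
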