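import Pool.Agent.L7h75.BP.Add
import Pool.Agent.L7h58.BP.Stm4
import Pool.Agent.L7h10.BP.GAU

set_option autoImplicit false

/-! Project BP, part QF4: `B_n` has no factor of degree 2 if `4 ∣ n`. -/

namespace Pool.Agent.L7h75.BP

open Finset Polynomial Pool.Agent.L7h58.BP Pool.Agent.L7h10.BP

theorem zmod2_odd {a : ℤ} (h : (a : ZMod 2) ≠ 0) : ∃ b, a = 2 * b + 1 := by
  have h1 : ¬ (2 : ℤ) ∣ a := by
    intro h2
    apply h
    have := (ZMod.intCast_zmod_eq_zero_iff_dvd a 2).2 (by exact_mod_cast h2)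
    exact this
  exact ⟨a / 2, by omega⟩

/-- the high coefficients of `X^n + (X+1)^n` modulo 2 -/
theorem coeff_high (n N : ℕ) (h4 : 4 ∣ n) (h1 : 1 ≤ n) (hN : n - 2 ≤ N) :
    (X ^ n + (X + 1) ^ n : (ZMod 2)[X]).coeff N = 0 := by
  rw [coeff_add, coeff_X_pow, coeff_X_add_one_pow]
  obtain ⟨t, rfl⟩ := h4
  rcases Nat.lt_or_ge (4 * t) N with h | h
  · rw [if_neg (by omega), Nat.choose_eq_zero_of_lt h]; simp
  · have h3 : N = 4 * t ∨ N = 4 * t - 1 ∨ N = 4 * t - 2 := by omega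
    rcases h3 with rfl | rfl | rfl
    · rw [if_pos rfl, Nat.choose_self]
      decide +revert
    · rw [if_neg (by omega), zero_add, ZMod.natCast_eq_zero_iff]
      rw [Nat.choose_symm_of_eq_add (show 4 * t = (4 * t - 1) + 1 by omega), Nat.choose_one_right]
      omega
    · rw [if_neg (by omega), zero_add, ZMod.natCast_eq_zero_iff]
      rw [Nat.choose_symm_of_eq_add (show 4 * t = (4 * t - 2) + 2 by omega), Nat.choose_two_right]
      have : 4 * t * (4 * t - 1) / 2 = 2 * (t * (4 * t - 1)) := by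
        rw [show 4 * t * (4 * t - 1) = 2 * (2 * (t * (4 * t - 1))) by ring]
        exact Nat.mul_div_cancel_left _ (by norm_num)
      rw [this]
      exact Dvd.intro _ rfl

theorem Sp_two' (n : ℕ) : Sp 2 n = X ^ n + (X + 1) ^ n := by
  unfold Sp
  rw [Finset.sum_range_succ, Finset.sum_range_one]
  simp only [Nat.cast_zero, C_0, add_zero, Nat.cast_one, C_1]

theorem quad (F : ℤ[X]) (h : F.natDegree = 2) :
    F = C (F.coeff 2) * X ^ 2 + C (F.coeff 1) * X + C (F.coeff 0) := by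
  conv_lhs => rw [F.as_sum_range_C_mul_X_pow, h]
  rw [Finset.sum_range_succ, Finset.sum_range_succ, Finset.sum_range_succ, Finset.sum_range_zero]
  simp only [pow_zero, pow_one, mul_one, zero_add]
  ring

/-- `F = X^2 + X + 1 - 2W` divides `X^6 - 1` and `(X+1)^6 - 1` modulo 4 -/
theorem six (R : Type) [CommRing R] (h4 : (4 : R) = 0) (x w F : R) (hF : F = x ^ 2 + x + 1 + 2 * w) :
    F ∣ x ^ 6 - 1 ∧ F ∣ (x + 1) ^ 6 - 1 := by
  constructor
  · refine ⟨(x - 1) ^ 2 * (F - 4 * w) + 2 * (x - 1), ?_⟩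
    rw [hF]
    linear_combination ((x - 1) ^ 2 * w ^ 2 - (x - 1) * w) * h4
  · refine ⟨(x + 2) ^ 2 * (F - 4 * w) - 2 * (x + 2), ?_⟩
    rw [hF]
    linear_combination ((x + 2) ^ 2 * w ^ 2 + (x + 2) * w) * h4

theorem no_six (D n : ℕ) (hD : ¬ 2 ∣ D) (h6 : 6 ∣ n) (a b c : ℤ)
    (hdvd : (C ((2 * a + 1 : ℤ) : ZMod 4) * X ^ 2 + C ((2 * b + 1 : ℤ) : ZMod 4) * X +
      C ((2 * c + 1 : ℤ) : ZMod 4)) ∣ C (D : ZMod 4) * (X ^ n + (X + 1) ^ n)) : False := by
  set F : (ZMod 4)[X] := C ((2 * a + 1 : ℤ) : ZMod 4) * X ^ 2 + C ((2 * b + 1 : ℤ) : ZMod 4) * X +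
      C ((2 * c + 1 : ℤ) : ZMod 4) with hF
  have h4z : (4 : (ZMod 4)[X]) = 0 := by
    have : ((4 : ℕ) : (ZMod 4)[X]) = 0 := CharP.cast_eq_zero _ 4
    exact_mod_cast this
  obtain ⟨h1, h2⟩ := six (ZMod 4)[X] h4z X (C (a : ZMod 4) * X ^ 2 + C (b : ZMod 4) * X +
    C (c : ZMod 4)) F (by
      rw [hF]
      push_cast
      simp only [C_add, C_mul, C_1, C_ofNat]
      ring)
  obtain ⟨t, rfl⟩ := h6
  have h3 : F ∣ X ^ (6 * t) - 1 := by
    rw [pow_mul]
    have := sub_dvd_pow_sub_pow ((X : (ZMod 4)[X]) ^ 6) 1 t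
    rw [one_pow] at this
    exact h1.trans this
  have h5 : F ∣ (X + 1) ^ (6 * t) - 1 := by
    rw [pow_mul]
    have := sub_dvd_pow_sub_pow ((X + 1 : (ZMod 4)[X]) ^ 6) 1 t
    rw [one_pow] at this
    exact h2.trans this
  have h7 : F ∣ C (D : ZMod 4) * 2 := by
    have h8 := (dvd_add h3 h5).mul_left (C (D : ZMod 4))
    have h9 := dvd_sub hdvd h8
    have h10 : C (D : ZMod 4) * (X ^ (6 * t) + (X + 1) ^ (6 * t)) -
      C (D : ZMod 4) * (X ^ (6 * t) - 1 + ((X + 1) ^ (6 * t) - 1)) = C (D : ZMod 4) * 2 := by ring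
    rw [h10] at h9
    exact h9
  have h11 : (C (D : ZMod 4) * 2 : (ZMod 4)[X]) = C 2 := by
    rw [show (2 : (ZMod 4)[X]) = C 2 from (map_ofNat C 2).symm, ← C_mul]
    congr 1
    obtain ⟨k, hk⟩ : ∃ k, D = 2 * k + 1 := ⟨D / 2, by omega⟩
    rw [hk]
    push_cast
    have : (4 : ZMod 4) = 0 := by decide
    linear_combination (k : ZMod 4) * this
  rw [h11] at h7
  obtain ⟨Q, hQ⟩ := h7
  have h20 : (2 : ZMod 4) ≠ 0 := by decide
  have hQ0 : Q ≠ 0 := by
    rintro rfl
    rw [mul_zero] at hQ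
    exact h20 (C_eq_zero.1 hQ)
  have hlc : F.coeff 2 * (2 * a + 1 : ℤ) = 1 := by
    have : F.coeff 2 = ((2 * a + 1 : ℤ) : ZMod 4) := by
      rw [hF, coeff_add, coeff_add, coeff_C_mul, coeff_C_mul, coeff_X_pow, coeff_X, coeff_C,
        if_pos rfl, if_neg (by norm_num), if_neg (by norm_num)]
      ring
    rw [this, ← Int.cast_mul]
    have h12 : ((2 * a + 1) * (2 * a + 1) : ℤ) = 4 * (a * (a + 1)) + 1 := by ring
    rw [h12]
    push_cast
    have : (4 : ZMod 4) = 0 := by decide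
    rw [this]; ring
  have hdF : F.natDegree = 2 := by
    apply natDegree_eq_of_le_of_coeff_ne_zero
    · rw [hF]
      compute_degree
    · intro h
      rw [h, zero_mul] at hlc
      exact absurd hlc (by decide)
  have hmul : F.leadingCoeff * Q.leadingCoeff ≠ 0 := by
    intro h
    rw [leadingCoeff, hdF] at h
    have h13 : Q.leadingCoeff = 0 := by
      calc Q.leadingCoeff = (F.coeff 2 * ((2 * a + 1 : ℤ) : ZMod 4)) * Q.leadingCoeff := by
            rw [hlc, one_mul]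
        _ = (F.coeff 2 * Q.leadingCoeff) * ((2 * a + 1 : ℤ) : ZMod 4) := by ring
        _ = 0 := by rw [h, zero_mul]
    exact hQ0 (leadingCoeff_eq_zero.1 h13)
  have h14 := natDegree_mul' hmul
  rw [← hQ, natDegree_C, hdF] at h14
  omega

theorem two_zero2 : (2 : (ZMod 2)[X]) = 0 := by
  have : ((2 : ℕ) : (ZMod 2)[X]) = 0 := CharP.cast_eq_zero _ 2
  exact_mod_cast this

theorem no_three (n : ℕ) (h3 : ¬ 3 ∣ n) :
    ¬ (X ^ 2 + X + 1 : (ZMod 2)[X]) ∣ X ^ n + (X + 1) ^ n := by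
  intro h
  set F : (ZMod 2)[X] := X ^ 2 + X + 1 with hF
  have hnu : ¬ F ∣ 1 := by
    intro h1
    have h2 := natDegree_le_of_dvd h1 one_ne_zero
    have h4 : F.natDegree = 2 := by
      rw [hF]; compute_degree!
    rw [h4] at h2
    simp at h2
  -- modulo F
  let φ := Ideal.Quotient.mk (Ideal.span {F})
  have hz : ∀ G, F ∣ G ↔ φ G = 0 := by
    intro G
    rw [Ideal.Quotient.eq_zero_iff_mem, Ideal.mem_span_singleton]
  have h2 : (2 : (ZMod 2)[X] ⧸ Ideal.span {F}) = 0 := by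
    have : φ 2 = 0 := by rw [two_zero2, map_zero]
    rwa [map_ofNat] at this
  obtain ⟨x, hx⟩ : ∃ x, x = φ X := ⟨_, rfl⟩
  have hx1 : x ^ 2 + x + 1 = 0 := by
    have h0 := (hz F).1 dvd_rfl
    have e : φ F = φ X ^ 2 + φ X + 1 := by
      show φ (X ^ 2 + X + 1) = _
      rw [map_add, map_add, map_pow, map_one]
    rw [hx, ← e]
    exact h0
  have hx3 : x ^ 3 = 1 := by linear_combination (x - 1) * hx1
  have hy : x + 1 = x ^ 2 := by linear_combination hx1 - (x ^ 2) * h2
  have hsum : x ^ n + (x ^ 2) ^ n = 0 := by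
    have := (hz _).1 h
    rw [map_add, map_pow, map_pow, map_add, map_one, ← hx, hy] at this
    exact this
  have h10 : (1 : (ZMod 2)[X] ⧸ Ideal.span {F}) = 0 := by
    obtain ⟨t, ht⟩ : ∃ t, n = 3 * t + 1 ∨ n = 3 * t + 2 := ⟨n / 3, by omega⟩
    rcases ht with rfl | rfl
    · have e1 : x ^ (3 * t + 1) = x := by rw [pow_add, pow_mul, hx3]; simp
      rw [← pow_mul, mul_comm 2, pow_mul, e1] at hsum
      linear_combination hx1 - hsum
    · have e1 : x ^ (3 * t + 2) = x ^ 2 := by rw [pow_add, pow_mul, hx3]; simp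
      rw [← pow_mul, mul_comm 2, pow_mul, e1] at hsum
      linear_combination hx1 - hsum + x * hx3
  have : φ 1 = 0 := by rw [map_one]; exact h10
  exact hnu ((hz 1).2 this)

/-- part QF4 -/
theorem s_QF4 : S_QF4 := by
  intro n f h4 hn hf hdvd
  obtain ⟨g, hg⟩ := hdvd
  have hev : Even n := by
    obtain ⟨t, rfl⟩ := h4
    exact ⟨2 * t, by ring⟩
  have hn4 : 4 ≤ n := Nat.le_of_dvd hn h4
  obtain ⟨P, hP, hPp⟩ := s_RED2 n hev (by omega)
  rw [← DD_primorial] at hP
  obtain ⟨u, hu, hPu⟩ := hPp 2 Nat.prime_two (by omega)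
  have hP4 := mod_four n hn h4 P hP
  have hB0 : Polynomial.bernoulli n ≠ 0 := by
    intro h
    have h1 : (Polynomial.bernoulli n).coeff n = 1 := by
      rw [Polynomial.coeff_bernoulli, if_pos le_rfl]
      simp
    rw [h] at h1
    simp at h1
  have hBd : (Polynomial.bernoulli n).natDegree = n := by
    apply natDegree_eq_of_le_of_coeff_ne_zero
    · rw [natDegree_le_iff_coeff_eq_zero]
      intro N hN
      rw [Polynomial.coeff_bernoulli, if_neg (by omega)]
    · rw [Polynomial.coeff_bernoulli, if_pos le_rfl]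
      simp
  have hBl : (Polynomial.bernoulli n).coeff n = 1 := by
    rw [Polynomial.coeff_bernoulli, if_pos le_rfl]
    simp
  have hD0 : (DD (n + 1) : ℚ) ≠ 0 := by exact_mod_cast (DD_pos (n + 1)).ne'
  have hP0 : P ≠ 0 := by
    rintro rfl
    rw [Polynomial.map_zero] at hP
    exact (mul_ne_zero (C_ne_zero.2 hD0) hB0) hP.symm
  obtain ⟨F, G, hFG, hF, hG⟩ := s_GAU P (C (DD (n + 1) : ℚ) * f) g hP0 (by rw [hP, hg]; ring)
  rw [natDegree_C_mul hD0, hf] at hF
  have hgd : g.natDegree = n - 2 := by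
    have h1 : f * g ≠ 0 := hg ▸ hB0
    have h2 := natDegree_mul (left_ne_zero_of_mul h1) (right_ne_zero_of_mul h1)
    rw [← hg, hBd, hf] at h2
    omega
  rw [hgd] at hG
  -- leading coefficients
  have hlead : F.coeff 2 * G.coeff (n - 2) = 2 * (DE (n + 1) 2 : ℤ) := by
    have h1 : P.leadingCoeff = F.leadingCoeff * G.leadingCoeff := by rw [hFG, leadingCoeff_mul]
    have hPd : P.natDegree = n := by
      have h2 : (P.map (Int.castRingHom ℚ)).natDegree = P.natDegree :=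
        natDegree_map_eq_of_injective Int.cast_injective P
      rw [← h2, hP, natDegree_C_mul hD0, hBd]
    rw [leadingCoeff, leadingCoeff, leadingCoeff, hF, hG, hPd] at h1
    rw [← h1]
    have h3 : ((P.coeff n : ℤ) : ℚ) = (DD (n + 1) : ℚ) := by
      have := congrArg (fun q => q.coeff n) hP
      simp only [coeff_map, coeff_C_mul, hBl, mul_one] at this
      exact this
    have h5 : P.coeff n = (DD (n + 1) : ℤ) := by exact_mod_cast h3
    rw [h5, DD_eq (mem_prs.2 ⟨by omega, Nat.prime_two⟩)]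
    push_cast
    rfl
  have hDE : ¬ 2 ∣ DE (n + 1) 2 := not_dvd_DE Nat.prime_two
  -- reduction modulo 2
  have hred : F.map (Int.castRingHom (ZMod 2)) * G.map (Int.castRingHom (ZMod 2)) =
      C u * (X ^ n + (X + 1) ^ n) := by
    rw [← Polynomial.map_mul, ← hFG, hPu, Sp_two']
  have hu1 : u = 1 := by
    have : ∀ v : ZMod 2, v ≠ 0 → v = 1 := by decide
    exact this u hu
  rw [hu1, C_1, one_mul] at hred
  have ha : ((F.coeff 2 : ℤ) : ZMod 2) ≠ 0 := by
    intro h0
    have h1 : (2 : ℤ) ∣ F.coeff 2 := by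
      have := (ZMod.intCast_zmod_eq_zero_iff_dvd (F.coeff 2) 2).1 h0
      exact_mod_cast this
    have h2 : ((G.coeff (n - 2) : ℤ) : ZMod 2) ≠ 0 := by
      intro h3
      have h5 : (2 : ℤ) ∣ G.coeff (n - 2) := by
        have := (ZMod.intCast_zmod_eq_zero_iff_dvd (G.coeff (n - 2)) 2).1 h3
        exact_mod_cast this
      have h6 : (2 : ℤ) * 2 ∣ 2 * (DE (n + 1) 2 : ℤ) := by
        rw [← hlead]; exact mul_dvd_mul h1 h5
      have h7 : (2 : ℤ) ∣ (DE (n + 1) 2 : ℤ) := by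
        exact Int.dvd_of_mul_dvd_mul_left (by norm_num) h6
      exact hDE (by exact_mod_cast h7)
    have hGm : (G.map (Int.castRingHom (ZMod 2))).natDegree = n - 2 := by
      apply natDegree_eq_of_le_of_coeff_ne_zero
      · exact natDegree_map_le.trans hG.le
      · rw [coeff_map]; exact h2
    have hprod0 : (X ^ n + (X + 1) ^ n : (ZMod 2)[X]) ≠ 0 := by
      intro h
      have := congrArg (fun q => q.coeff 0) h
      simp only [coeff_add, coeff_X_pow, coeff_X_add_one_pow, coeff_zero] at this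
      rw [if_neg (by omega)] at this
      simp at this
    have h8 : F.map (Int.castRingHom (ZMod 2)) * G.map (Int.castRingHom (ZMod 2)) ≠ 0 := by
      rw [hred]; exact hprod0
    have h9 := natDegree_mul (left_ne_zero_of_mul h8) (right_ne_zero_of_mul h8)
    rw [hGm, hred] at h9
    have h10 : (X ^ n + (X + 1) ^ n : (ZMod 2)[X]).coeff
        (X ^ n + (X + 1) ^ n : (ZMod 2)[X]).natDegree = 0 :=
      coeff_high n _ h4 hn (by rw [h9]; omega)
    exact hprod0 (leadingCoeff_eq_zero.1 h10)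
  have hc : ((F.coeff 0 : ℤ) : ZMod 2) ≠ 0 := by
    intro h0
    have h1 := congrArg (fun q => q.eval 0) hred
    simp only [eval_mul, eval_add, eval_pow, eval_X, eval_one, zero_add, one_pow] at h1
    rw [zero_pow (by omega), zero_add, ← coeff_zero_eq_eval_zero, coeff_map, eq_intCast, h0,
      zero_mul] at h1
    exact zero_ne_one h1
  have hb : ((F.coeff 1 : ℤ) : ZMod 2) ≠ 0 := by
    intro h0
    have h1 := congrArg (fun q => q.eval 1) hred
    simp only [eval_mul, eval_add, eval_pow, eval_X, eval_one, one_pow] at h1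
    have h2 : (1 : ZMod 2) + 1 = 0 := by decide
    rw [h2, zero_pow (by omega), add_zero] at h1
    have h3 : (F.map (Int.castRingHom (ZMod 2))).eval 1 =
        ((F.coeff 2 : ℤ) : ZMod 2) + ((F.coeff 1 : ℤ) : ZMod 2) + ((F.coeff 0 : ℤ) : ZMod 2) := by
      conv_lhs => rw [quad F hF]
      simp
    have h5 : ∀ v : ZMod 2, v ≠ 0 → v = 1 := by decide
    rw [h3, h5 _ ha, h5 _ hc, h0, add_zero, h2, zero_mul] at h1
    exact zero_ne_one h1
  obtain ⟨a, ha'⟩ := zmod2_odd ha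
  obtain ⟨b, hb'⟩ := zmod2_odd hb
  obtain ⟨c, hc'⟩ := zmod2_odd hc
  have hFq := quad F hF
  rw [ha', hb', hc'] at hFq
  by_cases h3 : 3 ∣ n
  · have h6 : 6 ∣ n := by omega
    refine no_six (DE (n + 1) 2) n hDE h6 a b c ?_
    rw [← hP4, hFG, Polynomial.map_mul]
    refine Dvd.intro (G.map (Int.castRingHom (ZMod 4))) ?_
    congr 1
    rw [hFq]
    simp only [Polynomial.map_add, Polynomial.map_mul, Polynomial.map_C, Polynomial.map_pow,
      Polynomial.map_X, Int.coe_castRingHom]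
  · apply no_three n h3
    rw [← hred]
    refine Dvd.intro (G.map (Int.castRingHom (ZMod 2))) ?_
    congr 1
    rw [hFq]
    simp only [Polynomial.map_add, Polynomial.map_mul, Polynomial.map_C, Polynomial.map_pow,
      Polynomial.map_X, Int.coe_castRingHom]
    have h5 : ∀ z : ℤ, (((2 * z + 1 : ℤ)) : ZMod 2) = 1 := by
      intro z
      push_cast
      have : (2 : ZMod 2) = 0 := by decide
      rw [this]; ring
    rw [h5, h5, h5, C_1]
    ring

end Pool.Agent.L7h75.BP
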