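import Pool.Agent.L7h58.BP.Stm4
import Pool.Agent.L7h29.BP.Two

set_option autoImplicit false

/-! Project BP, part TWG: the prime 2, degree 2^e r q. -/

namespace Pool.Agent.L7h75.BP

open Finset Polynomial Pool.Agent.L7h58.BP
open Pool.Agent.L7h29.BP (R2 Sp_two natDegree_R2 R2_ne_zero natDegree_bern bern_ne_zero)

theorem two_eq : (2 : (ZMod 2)[X]) = 0 := by
  have : ((2 : ℕ) : (ZMod 2)[X]) = 0 := CharP.cast_eq_zero _ 2
  exact_mod_cast this

theorem sep_R2 (m : ℕ) (hm : Odd m) : (R2 m).Separable := by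
  obtain ⟨k, rfl⟩ := hm
  have hc : ((2 * k + 1 : ℕ) : (ZMod 2)[X]) = 1 := by
    push_cast
    rw [two_eq]; ring
  have hd : derivative (R2 (2 * k + 1)) = X ^ (2 * k) + (X + 1) ^ (2 * k) := by
    unfold R2
    rw [derivative_add, derivative_X_pow, derivative_pow]
    simp only [derivative_add, derivative_X, derivative_one, add_zero, mul_one,
      Nat.add_sub_cancel]
    have h1 : (C ((2 * k + 1 : ℕ) : ZMod 2) : (ZMod 2)[X]) = 1 := by
      rw [map_natCast]; exact hc
    rw [h1, one_mul, one_mul]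
  have hco : IsCoprime ((X : (ZMod 2)[X]) ^ (2 * k)) ((X + 1) ^ (2 * k)) := by
    apply IsCoprime.pow
    exact ⟨-1, 1, by ring⟩
  obtain ⟨a, b, hab⟩ := hco
  -- B = R2 - X R2', A = R2' - B
  refine ⟨b - a, a - X * (b - a), ?_⟩
  rw [hd]
  unfold R2
  rw [pow_succ, pow_succ]
  linear_combination hab

theorem R2_dvd (r q : ℕ) (hq : Odd q) : R2 r ∣ R2 (r * q) := by
  unfold R2
  rw [pow_mul, pow_mul]
  exact Odd.add_dvd_pow_add_pow _ _ hq

theorem natDegree_R2_le (r : ℕ) (hr : Odd r) : (R2 r).natDegree ≤ r - 1 := by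
  rw [natDegree_le_iff_coeff_eq_zero]
  intro N hN
  obtain ⟨k, hk⟩ := hr
  rcases Nat.lt_or_ge r N with h | h
  · unfold R2
    rw [coeff_add, coeff_X_pow, if_neg (by omega), coeff_X_add_one_pow, Nat.choose_eq_zero_of_lt h]
    simp
  · have : N = r := by omega
    rw [this]; exact Pool.Agent.L7h29.BP.coeff_R2_top r

/-- an irreducible factor of small degree divides `R2 r` -/
theorem small_dvd (r q : ℕ) (hr : Odd r) (hq : q.Prime) (hq2 : 2 < q) (P : (ZMod 2)[X])
    (hP : Irreducible P) (hPR : P ∣ R2 (r * q)) (hlt : P.natDegree < orderOf (2 : ZMod q)) :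
    P ∣ R2 r := by
  have : Fact q.Prime := ⟨hq⟩
  have hr0 : r ≠ 0 := by
    obtain ⟨k, hk⟩ := hr; omega
  have : Fact (Irreducible P) := ⟨hP⟩
  have hP0 : P ≠ 0 := hP.ne_zero
  let K := AdjoinRoot P
  let x : K := AdjoinRoot.root P
  have hfin : Module.finrank (ZMod 2) K = P.natDegree := by
    rw [PowerBasis.finrank (AdjoinRoot.powerBasis hP0), AdjoinRoot.powerBasis_dim]
  have hPpos : 0 < P.natDegree := hP.natDegree_pos
  have : FiniteDimensional (ZMod 2) K := Module.finite_of_finrank_pos (by rw [hfin]; exact hPpos)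
  have : Finite K := Module.finite_of_finite (ZMod 2)
  have : Fintype K := Fintype.ofFinite K
  have hcard : Fintype.card K = 2 ^ P.natDegree := by
    rw [Module.card_eq_pow_finrank (K := ZMod 2) (V := K), hfin, ZMod.card]
  have : CharP K 2 := charP_of_injective_algebraMap (algebraMap (ZMod 2) K).injective 2
  have hx : x ^ (r * q) + (x + 1) ^ (r * q) = 0 := by
    obtain ⟨S, hS⟩ := hPR
    have h1 : aeval x (R2 (r * q)) = 0 := by
      rw [hS, map_mul]
      have : aeval x P = 0 := by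
        rw [AdjoinRoot.aeval_eq]; exact AdjoinRoot.mk_self
      rw [this, zero_mul]
    unfold R2 at h1
    simpa using h1
  have hrq : r * q ≠ 0 := Nat.mul_ne_zero hr0 (by omega)
  have hx0 : x ≠ 0 := by
    intro h0
    rw [h0, zero_pow hrq, zero_add, zero_add, one_pow] at hx
    exact one_ne_zero hx
  have h2 : (2 : K) = 0 := by
    have := CharP.cast_eq_zero K 2
    exact_mod_cast this
  let z : K := (x + 1) / x
  have hz : z ^ (r * q) = 1 := by
    have h3 : (x + 1) ^ (r * q) = x ^ (r * q) := by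
      have : (x + 1) ^ (r * q) = x ^ (r * q) + (x ^ (r * q) + (x + 1) ^ (r * q)) -
        2 * x ^ (r * q) := by ring
      rw [this, hx, h2]; ring
    simp only [z]
    rw [div_pow, h3]
    exact div_self (pow_ne_zero _ hx0)
  have hz0 : z ≠ 0 := by
    intro h
    rw [h, zero_pow hrq] at hz
    exact zero_ne_one hz
  have hzc : z ^ (2 ^ P.natDegree - 1) = 1 := by
    rw [← hcard]
    exact FiniteField.pow_card_sub_one_eq_one z hz0
  have hqn : ¬ q ∣ 2 ^ P.natDegree - 1 := by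
    intro hdvd
    have hpow : (2 : ZMod q) ^ P.natDegree = 1 := by
      have h4 : 1 ≤ 2 ^ P.natDegree := Nat.one_le_two_pow
      rw [← ZMod.natCast_eq_zero_iff, Nat.cast_sub h4] at hdvd
      push_cast at hdvd
      exact sub_eq_zero.mp hdvd
    have := Nat.le_of_dvd hPpos (orderOf_dvd_of_pow_eq_one hpow)
    omega
  have hcop : Nat.Coprime (orderOf z) q := by
    rw [Nat.coprime_comm, hq.coprime_iff_not_dvd]
    intro h
    exact hqn (h.trans (orderOf_dvd_of_pow_eq_one hzc))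
  have hzr : z ^ r = 1 :=
    orderOf_dvd_iff_pow_eq_one.1 (hcop.dvd_of_dvd_mul_right (orderOf_dvd_of_pow_eq_one hz))
  have hfinal : aeval x (R2 r) = 0 := by
    unfold R2
    have h5 : (x + 1) ^ r = x ^ r := by
      simp only [z] at hzr
      rw [div_pow, div_eq_one_iff_eq (pow_ne_zero _ hx0)] at hzr
      exact hzr
    have h6 : x ^ r + (x + 1) ^ r = 0 := by
      rw [h5, ← two_mul, h2, zero_mul]
    simpa using h6
  rw [AdjoinRoot.aeval_eq, AdjoinRoot.mk_eq_zero] at hfinal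
  exact hfinal

theorem F_dvd (e r q : ℕ) (hr : Odd r) (hq : q.Prime) (hq2 : 2 < q) (F : (ZMod 2)[X])
    (hF : F ∣ R2 (r * q) ^ (2 ^ e)) (hF0 : F ≠ 0) (hlt : F.natDegree < orderOf (2 : ZMod q)) :
    F ∣ R2 r ^ (2 ^ e) := by
  have hqo : Odd q := hq.odd_of_ne_two (by omega)
  obtain ⟨T, hT⟩ := R2_dvd r q hqo
  have hsep := sep_R2 (r * q) (hr.mul hqo)
  rw [hT] at hsep
  have hco : IsCoprime (R2 r) T := hsep.isCoprime
  have hFT : IsCoprime F T := by
    apply isCoprime_of_irreducible_dvd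
    · rintro ⟨h, -⟩
      exact hF0 h
    · intro P hP hPF hPT
      have hPle : P.natDegree ≤ F.natDegree := natDegree_le_of_dvd hPF hF0
      have h1 : P ∣ R2 r := small_dvd r q hr hq hq2 P hP
        (by rw [hT]; exact hPT.mul_left _) (by omega)
      exact hP.not_isUnit (hco.isUnit_of_dvd' h1 hPT)
  rw [hT, mul_pow] at hF
  exact (hFT.pow_right).dvd_of_dvd_mul_right hF

/-- part TWG -/
theorem s_TWG (hcri : S_CRI) : S_TWG := by
  intro e r q he hr hq hq2 hqr f g hfg hlt
  have hro : Odd r := Nat.odd_iff.2 hr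
  have hqo : Odd q := hq.odd_of_ne_two (by omega)
  have hr1 : 1 ≤ r := by omega
  have hrq : 2 < r * q := by nlinarith
  have hpe : 2 ≤ 2 ^ e := by
    calc 2 = 2 ^ 1 := by norm_num
      _ ≤ 2 ^ e := Nat.pow_le_pow_right (by norm_num) he
  have hnev : Even (2 ^ e * (r * q)) := by
    apply Even.mul_right
    exact (Nat.even_pow.mpr ⟨even_two, by omega⟩)
  have hn2 : 2 ≤ 2 ^ e * (r * q) := by nlinarith
  obtain ⟨F, G, hFG, hF, hG, hor⟩ := hcri (2 ^ e * (r * q)) 2 hnev hn2 Nat.prime_two (by omega)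
    f g hfg
  rw [Sp_two] at hFG
  have hR0' : R2 (r * q) ≠ 0 := R2_ne_zero (r * q) hrq (hro.mul hqo)
  have hR0 : R2 (r * q) ^ (2 ^ e) ≠ 0 := pow_ne_zero _ hR0'
  have hFG0 : F * G ≠ 0 := hFG ▸ hR0
  have hF0 : F ≠ 0 := left_ne_zero_of_mul hFG0
  have hG0 : G ≠ 0 := right_ne_zero_of_mul hFG0
  have hdegs : F.natDegree + G.natDegree = 2 ^ e * (r * q - 1) := by
    rw [← natDegree_mul hF0 hG0, hFG, natDegree_pow, natDegree_R2 (r * q) hrq (hro.mul hqo)]
  have hFle : F.natDegree ≤ 2 ^ e * (r - 1) := by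
    have h1 := F_dvd e r q hro hq hq2 F (Dvd.intro G hFG) hF0 (by omega)
    have hRr : R2 r ≠ 0 := by
      intro h0
      obtain ⟨T, hT⟩ := R2_dvd r q hqo
      rw [h0, zero_mul] at hT
      exact hR0' hT
    have h2 := natDegree_le_of_dvd h1 (pow_ne_zero _ hRr)
    rw [natDegree_pow] at h2
    exact h2.trans (Nat.mul_le_mul_left _ (natDegree_R2_le r hro))
  have h7 : 2 ^ e * (r - 1) = 2 ^ e * r - 2 ^ e := by rw [Nat.mul_sub, mul_one]
  have h8 : 2 ^ e ≤ 2 ^ e * r := Nat.le_mul_of_pos_right _ hr1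
  rcases hor with h | h
  · omega
  · have hb0 : f * g ≠ 0 := hfg ▸ bern_ne_zero _
    have hsum : f.natDegree + g.natDegree = 2 ^ e * (r * q) := by
      rw [← natDegree_mul (left_ne_zero_of_mul hb0) (right_ne_zero_of_mul hb0), ← hfg,
        natDegree_bern]
    have h5 : 2 ^ e * (r * q - 1) = 2 ^ e * (r * q) - 2 ^ e := by
      rw [Nat.mul_sub, mul_one]
    have h6 : 2 ^ e ≤ 2 ^ e * (r * q) := Nat.le_mul_of_pos_right _ (by omega)
    omega

end Pool.Agent.L7h75.BP
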